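import Pool.Agent.H80.SH.Targets

/-!
# BLD: number of lists with admissible choices
-/

namespace Pool.Agent.H14.SH
open Finset Pool.Agent.H80.SH

theorem bld : T_BLD := by
  intro α _ nx c N T h
  induction T with
  | zero => simp [build]
  | succ T ih =>
    obtain ⟨ih1, ih2⟩ := ih
    have hstep : build nx (T + 1) =
        (build nx T).biUnion (fun l => (nx l).image (fun c => c :: l)) := rfl
    constructor
    · have h1 : (build nx (T + 1)).card ≤ ∑ l ∈ build nx T, (nx l).card := by
        rw [hstep]
        exact card_biUnion_le.trans (sum_le_sum fun l _ => card_image_le)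
      have h2 : ∑ l ∈ build nx T, c * (nx l).card ≤ (build nx T).card * N := by
        calc ∑ l ∈ build nx T, c * (nx l).card ≤ ∑ _l ∈ build nx T, N :=
              sum_le_sum (fun l _ => h l)
          _ = (build nx T).card * N := by simp
      calc c ^ (T + 1) * (build nx (T + 1)).card
          ≤ c ^ (T + 1) * ∑ l ∈ build nx T, (nx l).card := Nat.mul_le_mul_left _ h1
        _ = c ^ T * ∑ l ∈ build nx T, c * (nx l).card := by
            rw [pow_succ, mul_assoc, mul_sum]
        _ ≤ c ^ T * ((build nx T).card * N) := Nat.mul_le_mul_left _ h2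
        _ = (c ^ T * (build nx T).card) * N := by ring
        _ ≤ N ^ T * N := Nat.mul_le_mul_right _ ih1
        _ = N ^ (T + 1) := (pow_succ _ _).symm
    · intro l hl
      rw [hstep, mem_biUnion] at hl
      obtain ⟨l', hl', hl⟩ := hl
      rw [mem_image] at hl
      obtain ⟨d, -, rfl⟩ := hl
      simp [ih2 l' hl']

end Pool.Agent.H14.SH
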