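import Pool.Agent.H80.SH.Targets

/-!
# GOO: most formulas are good
-/

namespace Pool.Agent.H14.SH
open Finset Pool.Agent.H80.SH

theorem goo (hBLD : T_BLD) (hTUP : T_TUP) (hBAD : T_BAD) : T_GOO := by
  intro X α _ _ _ _ _ V L m g H T M hd h4
  have hnx : ∀ (A P : Finset X) (R : ℕ) (l : List α),
      4 * m * (nxt V g H A P R l).card ≤ Fintype.card α := by
    intro A P R l
    unfold nxt
    split_ifs with h1 h2 h3
    · exact hd _ h2
    · simp
    · exact hd _ h3
    · simp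
  have hb : ∀ (A P : Finset X) (R : ℕ), ∃ B : Finset (Fin m → α),
      4 ^ T * B.card ≤ Fintype.card α ^ m ∧
      ∀ F : Fin m → α, (∃ l : List (Fin m), l.Nodup ∧
        l.map F ∈ build (nxt V g H A P R) T) → F ∈ B := by
    intro A P R
    obtain ⟨h1, h2⟩ := hBLD α (nxt V g H A P R) (4 * m) (Fintype.card α) T (hnx A P R)
    obtain ⟨B, hB1, hB2⟩ := hTUP α m T _ h2
    refine ⟨B, ?_, hB2⟩
    have hpos : 0 < Fintype.card α ^ T := pow_pos Fintype.card_pos _
    refine Nat.le_of_mul_le_mul_right ?_ hpos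
    calc 4 ^ T * B.card * Fintype.card α ^ T = 4 ^ T * (B.card * Fintype.card α ^ T) := by ring
      _ ≤ 4 ^ T * (m ^ T * (build (nxt V g H A P R) T).card * Fintype.card α ^ m) :=
          Nat.mul_le_mul_left _ hB1
      _ = ((4 * m) ^ T * (build (nxt V g H A P R) T).card) * Fintype.card α ^ m := by
          rw [mul_pow]; ring
      _ ≤ Fintype.card α ^ T * Fintype.card α ^ m := Nat.mul_le_mul_right _ h1
      _ = Fintype.card α ^ m * Fintype.card α ^ T := mul_comm _ _
  choose B hB1 hB2 using hb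
  refine ⟨(L ×ˢ PS L M ×ˢ range (T + 1)).biUnion (fun p => B p.1 p.2.1 p.2.2), ?_, ?_⟩
  · have h5 : 4 ^ T * ((L ×ˢ PS L M ×ˢ range (T + 1)).biUnion
        (fun p => B p.1 p.2.1 p.2.2)).card ≤
        (L.card * (PS L M).card * (T + 1)) * Fintype.card α ^ m := by
      calc 4 ^ T * ((L ×ˢ PS L M ×ˢ range (T + 1)).biUnion
            (fun p => B p.1 p.2.1 p.2.2)).card
          ≤ 4 ^ T * ∑ p ∈ L ×ˢ PS L M ×ˢ range (T + 1), (B p.1 p.2.1 p.2.2).card :=
            Nat.mul_le_mul_left _ card_biUnion_le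
        _ = ∑ p ∈ L ×ˢ PS L M ×ˢ range (T + 1), 4 ^ T * (B p.1 p.2.1 p.2.2).card :=
            mul_sum _ _ _
        _ ≤ ∑ _p ∈ L ×ˢ PS L M ×ˢ range (T + 1), Fintype.card α ^ m :=
            sum_le_sum (fun p _ => hB1 _ _ _)
        _ = (L.card * (PS L M).card * (T + 1)) * Fintype.card α ^ m := by
            rw [sum_const, card_product, card_product, card_range, smul_eq_mul]; ring
    have h6 : 0 < 4 ^ T := pow_pos (by norm_num) T
    refine Nat.le_of_mul_le_mul_left ?_ h6
    calc 4 ^ T * (4 * ((L ×ˢ PS L M ×ˢ range (T + 1)).biUnion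
            (fun p => B p.1 p.2.1 p.2.2)).card)
        = 4 * (4 ^ T * ((L ×ˢ PS L M ×ˢ range (T + 1)).biUnion
            (fun p => B p.1 p.2.1 p.2.2)).card) := by ring
      _ ≤ 4 * ((L.card * (PS L M).card * (T + 1)) * Fintype.card α ^ m) :=
          Nat.mul_le_mul_left _ h5
      _ = (4 * (L.card * (PS L M).card * (T + 1))) * Fintype.card α ^ m := by ring
      _ ≤ 4 ^ T * Fintype.card α ^ m := Nat.mul_le_mul_right _ h4
  · intro F hF
    by_contra hg
    obtain ⟨A, hA, P, hP, R, hR, l, hl, hl2⟩ := hBAD X α V L m g H T M F hg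
    apply hF
    rw [mem_biUnion]
    refine ⟨(A, P, R), ?_, hB2 A P R F ⟨l, hl, hl2⟩⟩
    rw [mem_product, mem_product, mem_range]
    exact ⟨hA, hP, by change R < T + 1; omega⟩

end Pool.Agent.H14.SH
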